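import Pool.Agent.H242.LD.Stm2

/-!
# Project LE (helper242): DIST, bounded distortion (helper92)
-/

set_option autoImplicit false

namespace Pool.Agent.H92.LE

open Real Set Metric Filter Topology
open Pool.Agent.H242.LD Pool.Agent.H242.TM

/-- The case of a positive derivative. -/
theorem dist_pos (g : ℝ → ℝ) (s t B : ℝ) (hB : 0 ≤ B) (hg : ContDiff ℝ 2 g)
    (hp : ∀ τ ∈ Icc s t, 0 < deriv g τ)
    (hc : ∀ τ ∈ Icc s t, |deriv (deriv g) τ| ≤ B * (deriv g τ) ^ 2) :
    ∀ τ ∈ Icc s t, ∀ σ ∈ Icc s t, deriv g τ ≤ exp (B * |g τ - g σ|) * deriv g σ := by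
  have h1 : Differentiable ℝ g := hg.differentiable (by norm_num)
  have h2 : ContDiff ℝ 1 (deriv g) := by
    have h3 : ContDiff ℝ (1 + 1) g := by
      have h4 : (1 + 1 : WithTop ℕ∞) = 2 := by norm_num
      rw [h4]
      exact hg
    exact (contDiff_succ_iff_deriv.mp h3).2.2
  have h3 : Differentiable ℝ (deriv g) := h2.differentiable (by norm_num)
  have hlog : ∀ τ ∈ Icc s t, HasDerivAt (fun x => Real.log (deriv g x))
      (deriv (deriv g) τ / deriv g τ) τ := by
    intro τ hτ
    exact (h3 τ).hasDerivAt.log (hp τ hτ).ne'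
  have hBg : ∀ τ : ℝ, HasDerivAt (fun x => B * g x) (B * deriv g τ) τ := by
    intro τ
    exact (h1 τ).hasDerivAt.const_mul B
  have hanti : AntitoneOn (fun x => Real.log (deriv g x) - B * g x) (Icc s t) := by
    refine antitoneOn_of_deriv_nonpos (convex_Icc s t) ?_ ?_ ?_
    · intro x hx
      exact ((hlog x hx).sub (hBg x)).continuousAt.continuousWithinAt
    · intro x hx
      have hx' := interior_subset hx
      exact ((hlog x hx').sub (hBg x)).differentiableAt.differentiableWithinAt
    · intro x hx
      have hx' := interior_subset hx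
      have h5 : deriv (fun x => Real.log (deriv g x) - B * g x) x
          = deriv (deriv g) x / deriv g x - B * deriv g x :=
        ((hlog x hx').sub (hBg x)).deriv
      rw [h5, sub_nonpos, div_le_iff₀ (hp x hx')]
      have h6 := (abs_le.mp (hc x hx')).2
      nlinarith [h6]
  have hmono : MonotoneOn (fun x => Real.log (deriv g x) + B * g x) (Icc s t) := by
    refine monotoneOn_of_deriv_nonneg (convex_Icc s t) ?_ ?_ ?_
    · intro x hx
      exact ((hlog x hx).add (hBg x)).continuousAt.continuousWithinAt
    · intro x hx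
      have hx' := interior_subset hx
      exact ((hlog x hx').add (hBg x)).differentiableAt.differentiableWithinAt
    · intro x hx
      have hx' := interior_subset hx
      have h5 : deriv (fun x => Real.log (deriv g x) + B * g x) x
          = deriv (deriv g) x / deriv g x + B * deriv g x :=
        ((hlog x hx').add (hBg x)).deriv
      have h6 := (abs_le.mp (hc x hx')).1
      have h7 : -(B * deriv g x) ≤ deriv (deriv g) x / deriv g x := by
        rw [le_div_iff₀ (hp x hx')]
        nlinarith [h6]
      rw [h5]
      linarith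
  intro τ hτ σ hσ
  have hkey : Real.log (deriv g τ) - Real.log (deriv g σ) ≤ B * |g τ - g σ| := by
    rcases le_total σ τ with h | h
    · have h5 := hanti hσ hτ h
      simp only at h5
      have h6 : B * (g τ - g σ) ≤ B * |g τ - g σ| :=
        mul_le_mul_of_nonneg_left (le_abs_self _) hB
      linarith
    · have h5 := hmono hτ hσ h
      simp only at h5
      have h6 : B * (-(g τ - g σ)) ≤ B * |g τ - g σ| :=
        mul_le_mul_of_nonneg_left (neg_le_abs _) hB
      linarith
  have h8 : Real.log (deriv g τ) ≤ B * |g τ - g σ| + Real.log (deriv g σ) := by linarith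
  have h9 := Real.exp_le_exp.mpr h8
  rw [Real.exp_log (hp τ hτ), Real.exp_add, Real.exp_log (hp σ hσ)] at h9
  exact h9

/-- LE-DIST. -/
theorem le_DIST : S_DIST := by
  intro g s t B hB hg hne hc τ hτ σ hσ
  have h1 : Differentiable ℝ g := hg.differentiable (by norm_num)
  have hcont : Continuous (deriv g) := hg.continuous_deriv (by norm_num)
  -- the sign is constant
  have hsign : ∀ a ∈ Icc s t, ∀ b ∈ Icc s t, deriv g a < 0 → 0 < deriv g b → False := by
    intro a ha b hb h2 h3
    have h4 := intermediate_value_uIcc (a := a) (b := b) (f := deriv g) hcont.continuousOn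
    have h5 : (0 : ℝ) ∈ uIcc (deriv g a) (deriv g b) := by
      rw [uIcc_of_le (h2.trans h3).le]
      exact ⟨h2.le, h3.le⟩
    obtain ⟨c, hc1, hc2⟩ := h4 h5
    exact hne c (uIcc_subset_Icc ha hb hc1) hc2
  rcases lt_or_gt_of_ne (hne τ hτ) with h2 | h2
  · -- negative
    have hneg : ∀ x ∈ Icc s t, deriv g x < 0 := by
      intro x hx
      rcases lt_or_gt_of_ne (hne x hx) with h3 | h3
      · exact h3
      · exact absurd (hsign τ hτ x hx h2 h3) id
    have hd : deriv (fun x => -g x) = fun x => -deriv g x := by
      funext x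
      exact deriv.fun_neg
    have hdd : deriv (deriv (fun x => -g x)) = fun x => -deriv (deriv g) x := by
      rw [hd]
      funext x
      exact deriv.fun_neg
    have h5 := dist_pos (fun x => -g x) s t B hB hg.neg
      (by
        intro x hx
        rw [hd]
        have := hneg x hx
        simpa using this)
      (by
        intro x hx
        rw [hdd, hd]
        simpa using hc x hx) τ hτ σ hσ
    rw [hd] at h5
    simp only at h5
    rw [abs_of_neg (hneg τ hτ), abs_of_neg (hneg σ hσ)]
    have h6 : |-g τ - -g σ| = |g τ - g σ| := by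
      rw [← abs_neg (g τ - g σ)]
      congr 1
      ring
    rw [h6] at h5
    exact h5
  · have hpos : ∀ x ∈ Icc s t, 0 < deriv g x := by
      intro x hx
      rcases lt_or_gt_of_ne (hne x hx) with h3 | h3
      · exact absurd (hsign x hx τ hτ h3 h2) id
      · exact h3
    rw [abs_of_pos (hpos τ hτ), abs_of_pos (hpos σ hσ)]
    exact dist_pos g s t B hB hg hpos hc τ hτ σ hσ

end Pool.Agent.H92.LE
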